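import Pool.Agent.Lib.H5.Rain.Build
import Pool.Agent.Lib.H5.Rain.Greedy

/-!
# Rainbow induced paths: `ρ(P_n) = n ^ 2 / 4 + O(n log n)`

Lower bound (known): colour greedily with maximum independent sets.

Upper bound: layer `t` (for `t < m`, `n ≤ 2 m`) is a complete graph with `2 t + K` vertices, where
`K = O(log n)`, and consecutive layers are joined according to a Boolean matrix such that each set
of `O(log n)` rows contains a row which has many ones and many zeros in any given set of `O(log n)`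
columns (such matrices exist by counting). In any proper colouring the two vertices `x, y` of the
path in a layer are chosen among many candidates of unused colours, in such a way that in the next
layer there are again many candidates of unused colours adjacent to `y` and not to `x`, and many
adjacent to neither of them.
-/

namespace Pool.Agent.Results.MP_34314e_co.Asymptotics

open Finset

/-- `G` forces a rainbow induced `H`: in every proper colouring of `G` there is an induced copy of
`H` whose vertices have pairwise distinct colours. -/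
def ForcesRainbow {V W : Type} (G : SimpleGraph V) (H : SimpleGraph W) : Prop :=
  ∀ c : G.Coloring ℕ, ∃ f : H ↪g G, Function.Injective fun w => c (f w)

/-- `ρ(H)`: the smallest number of vertices of a graph that forces a rainbow induced `H`. -/
noncomputable def rho {W : Type} (H : SimpleGraph W) : ℕ :=
  sInf {N | ∃ G : SimpleGraph (Fin N), ForcesRainbow G H}

theorem exists_fin {V W : Type} [Fintype V] {G : SimpleGraph V} {H : SimpleGraph W}
    (h : ForcesRainbow G H) : ∃ G' : SimpleGraph (Fin (Fintype.card V)), ForcesRainbow G' H := by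
  let e : V ≃ Fin (Fintype.card V) := Fintype.equivFin V
  refine ⟨G.map e.toEmbedding, ?_⟩
  let φ : G ≃g G.map e.toEmbedding := SimpleGraph.Iso.map e G
  intro c
  obtain ⟨f, hf⟩ := h (c.comp φ.toHom)
  exact ⟨φ.toEmbedding.comp f, hf⟩

theorem forces_shorter {V : Type} {G : SimpleGraph V} {n n' : ℕ} (h : n ≤ n')
    (hG : ForcesRainbow G (SimpleGraph.pathGraph n')) :
    ForcesRainbow G (SimpleGraph.pathGraph n) := by
  intro c
  obtain ⟨f, hf⟩ := hG c
  let g : SimpleGraph.pathGraph n ↪g SimpleGraph.pathGraph n' :=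
    ⟨Fin.castLEEmb h, by
      intro i j
      change (SimpleGraph.pathGraph n').Adj (Fin.castLE h i) (Fin.castLE h j) ↔ _
      rw [SimpleGraph.pathGraph_adj, SimpleGraph.pathGraph_adj]
      rfl⟩
  exact ⟨f.comp g, fun i j hij => g.injective (hf hij)⟩

/-- a forcing graph with few vertices -/
theorem exists_small (n : ℕ) (hn : 2 ≤ n) : ∃ N : ℕ,
    (∃ G : SimpleGraph (Fin N), ForcesRainbow G (SimpleGraph.pathGraph n)) ∧
    4 * N ≤ n ^ 2 + 4 * (n * (1600 * (Nat.clog 2 n + 20) + 800)) := by
  obtain ⟨l, hl⟩ : ∃ l, l = Nat.clog 2 n + 20 := ⟨_, rfl⟩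
  obtain ⟨m, hm⟩ : ∃ m, m = (n + 1) / 2 := ⟨_, rfl⟩
  obtain ⟨s, hs⟩ : ∃ s : ℕ → ℕ, ∀ t, s t = 2 * t + 20 * (20 * (4 * l + 2)) := ⟨_, fun _ => rfl⟩
  have hsM : s m ≤ 2 ^ l := by
    have h1 : n ≤ 2 ^ Nat.clog 2 n := Nat.le_pow_clog (by norm_num) n
    have h2 : Nat.clog 2 n ≤ n := Nat.clog_le_of_le_pow (Nat.lt_two_pow_self).le
    rw [hs, hl, pow_add]
    have h3 : n * 2 ^ 20 ≤ 2 ^ Nat.clog 2 n * 2 ^ 20 := Nat.mul_le_mul_right _ h1
    refine le_trans ?_ h3
    omega
  obtain ⟨R, hR1, hR2⟩ := H5Rain.exists_splits (M := s m) (l := l) (h := 20 * (4 * l + 2))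
    (h' := 4 * l + 2) (by omega) hsM (by omega) le_rfl
  have hF : ForcesRainbow (H5Rain.layered' R m s) (SimpleGraph.pathGraph n) := by
    apply forces_shorter (n' := 2 * m) (by omega)
    intro c
    exact H5Rain.exists_path hs le_rfl hR1 hR2 le_rfl c
  refine ⟨_, exists_fin hF, ?_⟩
  rw [H5Rain.card_layered' (fun t ht => by rw [hs, hs]; omega)]
  have h1 : ∀ m, ∑ t ∈ range m, s t + m = m * m + m * (20 * (20 * (4 * l + 2))) := by
    intro m
    induction m with
    | zero => simp
    | succ m ih =>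
      rw [sum_range_succ, hs]
      have : (m + 1) * (m + 1) = m * m + 2 * m + 1 := by ring
      rw [this, add_mul]
      omega
  have h2 := h1 m
  have h3 : 4 * (m * m) ≤ n ^ 2 + 4 * m := by
    have h4 : 2 * m = n ∨ 2 * m = n + 1 := by omega
    rcases h4 with h4 | h4
    · rw [← h4]; nlinarith
    · have h5 : (2 * m) ^ 2 = (n + 1) ^ 2 := by rw [h4]
      nlinarith
  have h5 : m * (20 * (20 * (4 * l + 2))) ≤ n * (1600 * l + 800) := by
    have h6 : 20 * (20 * (4 * l + 2)) = 1600 * l + 800 := by ring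
    rw [h6]
    exact Nat.mul_le_mul_right _ (by omega)
  rw [hl] at h2 h5
  omega

/-- **Main result.** `n ^ 2 / 4 + n / 2 ≤ ρ(P_n) ≤ n ^ 2 / 4 + C n log n` for all `n ≥ 2`. -/
theorem result : ∃ C : ℝ, ∀ n : ℕ, 2 ≤ n →
    (n : ℝ) ^ 2 / 4 + n / 2 ≤ rho (SimpleGraph.pathGraph n) ∧
    (rho (SimpleGraph.pathGraph n) : ℝ) ≤ (n : ℝ) ^ 2 / 4 + C * n * Real.log n := by
  refine ⟨60000, fun n hn => ?_⟩
  obtain ⟨N, hN, hN4⟩ := exists_small n hn
  have hmem : ∃ G : SimpleGraph (Fin (rho (SimpleGraph.pathGraph n))),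
      ForcesRainbow G (SimpleGraph.pathGraph n) :=
    Nat.sInf_mem (s := {N | ∃ G : SimpleGraph (Fin N),
      ForcesRainbow G (SimpleGraph.pathGraph n)}) ⟨N, hN⟩
  have hle : rho (SimpleGraph.pathGraph n) ≤ N := Nat.sInf_le hN
  constructor
  · obtain ⟨G, hG⟩ := hmem
    have h1 := H5Rain.low_le (G := G) hG
    rw [Fintype.card_fin] at h1
    have h2 := H5Rain.four_low n
    have h3 : n ^ 2 + 2 * n ≤ 4 * rho (SimpleGraph.pathGraph n) := by omega
    have h4 : ((n ^ 2 + 2 * n : ℕ) : ℝ) ≤ ((4 * rho (SimpleGraph.pathGraph n) : ℕ) : ℝ) := by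
      exact_mod_cast h3
    push_cast at h4
    linarith
  · have h1 : ((4 * rho (SimpleGraph.pathGraph n) : ℕ) : ℝ) ≤
        ((n ^ 2 + 4 * (n * (1600 * (Nat.clog 2 n + 20) + 800)) : ℕ) : ℝ) := by
      have : 4 * rho (SimpleGraph.pathGraph n) ≤
          n ^ 2 + 4 * (n * (1600 * (Nat.clog 2 n + 20) + 800)) := by omega
      exact_mod_cast this
    push_cast at h1
    have hlog2 : (0.69 : ℝ) < Real.log 2 := by
      have := Real.log_two_gt_d9
      linarith
    have hn2 : (2 : ℝ) ≤ n := by exact_mod_cast hn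
    have hlogn : Real.log 2 ≤ Real.log n := Real.log_le_log (by norm_num) hn2
    have hc1 : 1 ≤ Nat.clog 2 n := by
      have := Nat.clog_pos (b := 2) (n := n) (by norm_num) (by omega)
      omega
    have h3 : 2 ^ (Nat.clog 2 n - 1) < n := by
      by_contra hcon
      push Not at hcon
      have := Nat.clog_le_of_le_pow hcon
      omega
    have h4 : ((Nat.clog 2 n : ℝ) - 1) * Real.log 2 ≤ Real.log n := by
      have h5 : ((2 ^ (Nat.clog 2 n - 1) : ℕ) : ℝ) ≤ n := by exact_mod_cast h3.le
      have h6 := Real.log_le_log (by positivity) h5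
      push_cast at h6
      rw [Real.log_pow, Nat.cast_sub hc1] at h6
      simpa using h6
    have h5 : (Nat.clog 2 n : ℝ) ≤ 1 + Real.log n / 0.69 := by
      have h6 : ((Nat.clog 2 n : ℝ) - 1) * 0.69 ≤ Real.log n := by
        refine le_trans ?_ h4
        apply mul_le_mul_of_nonneg_left hlog2.le
        have : (1 : ℝ) ≤ Nat.clog 2 n := by exact_mod_cast hc1
        linarith
      have h7 : (Nat.clog 2 n : ℝ) - 1 ≤ Real.log n / 0.69 := by
        rw [le_div_iff₀ (by norm_num)]
        exact h6
      linarith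
    have h6 : 1600 * ((Nat.clog 2 n : ℝ) + 20) + 800 ≤ 60000 * Real.log n := by
      have h7 : Real.log n / 0.69 ≤ 1.45 * Real.log n := by
        rw [div_le_iff₀ (by norm_num)]
        have : 0 ≤ Real.log n := by linarith
        nlinarith
      linarith
    have h7 : (n : ℝ) * (1600 * ((Nat.clog 2 n : ℝ) + 20) + 800) ≤
        n * (60000 * Real.log n) := mul_le_mul_of_nonneg_left h6 (by linarith)
    linarith

end Pool.Agent.Results.MP_34314e_co.Asymptotics
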