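import Mathlib

/-!
# Rainbow induced paths: an improved upper bound for `ρ(P_n)`

The graphs used are blow-ups of the path `P_n` in which the vertices are replaced by complete graphs
on `a 0, …, a (n - 1)` vertices, consecutive ones being completely joined.  By Hall's theorem, such a
graph has a rainbow induced `P_n` in every proper colouring as soon as every set `I` of positions
satisfies `|I| ≤ m` whenever `a i ≤ m` for all `i ∈ I` and `a i + a (i + 1) ≤ m` for all
`i, i + 1 ∈ I`.  The weights are, up to small corrections, the blocks `x, k, k + x, 2 k` for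
`x = 1, …, k`, where `n = 4 k`; their total is `5 k ^ 2 + k + 1`, that is about `5 n ^ 2 / 16`.
-/

namespace Pool.Agent.Results.MP_34314e_co.UpperBound

open Finset

/-- `G` forces a rainbow induced `H`: in every proper colouring of `G` there is an induced copy of
`H` whose vertices have pairwise distinct colours. -/
def ForcesRainbow {V W : Type} (G : SimpleGraph V) (H : SimpleGraph W) : Prop :=
  ∀ c : G.Coloring ℕ, ∃ f : H ↪g G, Function.Injective fun w => c (f w)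

/-- `ρ(H)`: the smallest number of vertices of a graph that forces a rainbow induced `H`. -/
noncomputable def rho {W : Type} (H : SimpleGraph W) : ℕ :=
  sInf {N | ∃ G : SimpleGraph (Fin N), ForcesRainbow G H}

theorem exists_fin {V W : Type} [Fintype V] {G : SimpleGraph V} {H : SimpleGraph W}
    (h : ForcesRainbow G H) : ∃ G' : SimpleGraph (Fin (Fintype.card V)), ForcesRainbow G' H := by
  let e : V ≃ Fin (Fintype.card V) := Fintype.equivFin V
  refine ⟨G.map e.toEmbedding, ?_⟩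
  let φ : G ≃g G.map e.toEmbedding := SimpleGraph.Iso.map e G
  intro c
  obtain ⟨f, hf⟩ := h (c.comp φ.toHom)
  exact ⟨φ.toEmbedding.comp f, hf⟩

theorem rho_le {V W : Type} [Fintype V] {G : SimpleGraph V} {H : SimpleGraph W}
    (h : ForcesRainbow G H) : rho H ≤ Fintype.card V :=
  Nat.sInf_le (exists_fin h)

/-- The weights `a 0, …, a (n - 1)` satisfy the Hall type condition. -/
def Good (n : ℕ) (a : ℕ → ℕ) : Prop :=
  ∀ (m : ℕ) (e : ℕ → ℕ), (∀ p, e p ≤ 1) → (∀ p, m < a p → e p = 0) →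
    (∀ p, m < a p + a (p + 1) → e p + e (p + 1) ≤ 1) → ∑ p ∈ range n, e p ≤ m

/-- The blow-up of the path on `n` vertices by complete graphs on `a 0, …, a (n - 1)` vertices. -/
def blowup (n : ℕ) (a : ℕ → ℕ) : SimpleGraph (Σ i : Fin n, Fin (a i)) where
  Adj u v := u ≠ v ∧ (u.1 = v.1 ∨ (u.1 : ℕ) + 1 = v.1 ∨ (v.1 : ℕ) + 1 = u.1)
  symm := ⟨fun u v h => ⟨h.1.symm, by rcases h.2 with h | h | h <;> simp [h]⟩⟩
  loopless := ⟨fun u h => h.1 rfl⟩

theorem forces_blowup {n : ℕ} {a : ℕ → ℕ} (ha : Good n a) :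
    ForcesRainbow (blowup n a) (SimpleGraph.pathGraph n) := by
  intro c
  let S : Fin n → Finset ℕ := fun i => univ.image fun j : Fin (a i) => c ⟨i, j⟩
  have hScard : ∀ i, (S i).card = a i := by
    intro i
    rw [Finset.card_image_of_injective, Finset.card_univ, Fintype.card_fin]
    intro j j' hjj
    by_contra hne
    exact c.valid (v := ⟨i, j⟩) (w := ⟨i, j'⟩)
      ⟨fun h => hne (by simpa using h), Or.inl rfl⟩ hjj
  have hSdisj : ∀ i i' : Fin n, (i : ℕ) + 1 = i' → Disjoint (S i) (S i') := by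
    intro i i' hii
    rw [Finset.disjoint_left]
    intro x hx hx'
    obtain ⟨j, -, hj⟩ := Finset.mem_image.mp hx
    obtain ⟨j', -, hj'⟩ := Finset.mem_image.mp hx'
    refine c.valid (v := ⟨i, j⟩) (w := ⟨i', j'⟩) ⟨?_, Or.inr (Or.inl hii)⟩ (hj.trans hj'.symm)
    intro h
    have : i = i' := congrArg Sigma.fst h
    rw [this] at hii
    omega
  have hall : ∀ s : Finset (Fin n), s.card ≤ (s.biUnion S).card := by
    intro s
    have h1 := ha (s.biUnion S).card
      (fun p => if h : p < n then (if (⟨p, h⟩ : Fin n) ∈ s then 1 else 0) else 0) ?_ ?_ ?_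
    · refine le_trans (le_of_eq ?_) h1
      rw [Finset.sum_range]
      simp
    · intro p
      split_ifs <;> simp
    · intro p hp
      split_ifs with h h'
      · exfalso
        have := Finset.card_le_card (Finset.subset_biUnion_of_mem S h')
        rw [hScard] at this
        exact absurd this (not_le.mpr hp)
      · rfl
      · rfl
    · intro p hp
      split_ifs with h1 h2 h3 h4 h5 h6 <;> try simp
      exfalso
      have h7 : S ⟨p, h1⟩ ∪ S ⟨p + 1, h3⟩ ⊆ s.biUnion S :=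
        Finset.union_subset (Finset.subset_biUnion_of_mem S h2)
          (Finset.subset_biUnion_of_mem S h4)
      have h8 := Finset.card_le_card h7
      rw [Finset.card_union_of_disjoint (hSdisj _ _ rfl), hScard, hScard] at h8
      exact absurd h8 (not_le.mpr hp)
  obtain ⟨f, hf, hfS⟩ := (Finset.all_card_le_biUnion_card_iff_exists_injective S).mp hall
  have hch : ∀ i : Fin n, ∃ j : Fin (a i), c ⟨i, j⟩ = f i := by
    intro i
    obtain ⟨j, -, hj⟩ := Finset.mem_image.mp (hfS i)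
    exact ⟨j, hj⟩
  choose g hg using hch
  refine ⟨⟨⟨fun i => ⟨i, g i⟩, fun i i' h => congrArg Sigma.fst h⟩, ?_⟩, ?_⟩
  · intro i i'
    change (_ ≠ _ ∧ (i = i' ∨ (i : ℕ) + 1 = i' ∨ (i' : ℕ) + 1 = i)) ↔ _
    rw [SimpleGraph.pathGraph_adj]
    constructor
    · rintro ⟨h1, h2 | h2⟩
      · subst h2
        exact absurd rfl h1
      · exact h2
    · intro h
      refine ⟨?_, Or.inr h⟩
      intro h1
      have : i = i' := congrArg Sigma.fst h1
      subst this
      omega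
  · intro i i' h
    apply hf
    rw [← hg, ← hg]
    exact h

/-- The infimum in the definition of `ρ(P_n)` is attained. -/
theorem rho_mem (n : ℕ) :
    ∃ G : SimpleGraph (Fin (rho (SimpleGraph.pathGraph n))),
      ForcesRainbow G (SimpleGraph.pathGraph n) := by
  refine Nat.sInf_mem (s := {N | ∃ G : SimpleGraph (Fin N),
    ForcesRainbow G (SimpleGraph.pathGraph n)}) ?_
  have hg : Good n fun p => p + 1 := by
    intro m e h1 h0 _
    have h3 : ∀ p ∈ range n, e p ≤ if p < m then 1 else 0 := by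
      intro p _
      split_ifs with h
      · exact h1 p
      · rw [h0 p (show m < p + 1 by omega)]
    refine (Finset.sum_le_sum h3).trans ?_
    rw [Finset.sum_boole, Nat.cast_id]
    refine (Finset.card_le_card (t := range m) ?_).trans (by simp)
    intro b hb
    simp only [Finset.mem_filter] at hb
    exact Finset.mem_range.mpr hb.2
  have hf := forces_blowup hg
  refine ⟨_, exists_fin hf⟩

theorem rho_le_sum {n : ℕ} {a : ℕ → ℕ} (ha : Good n a) :
    rho (SimpleGraph.pathGraph n) ≤ ∑ p ∈ range n, a p := by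
  refine (rho_le (forces_blowup ha)).trans (le_of_eq ?_)
  rw [Fintype.card_sigma, Finset.sum_range]
  simp

theorem sum_four (f : ℕ → ℕ) (k : ℕ) : ∑ p ∈ range (4 * k), f p =
    ∑ b ∈ range k, (f (4 * b) + f (4 * b + 1) + f (4 * b + 2) + f (4 * b + 3)) := by
  induction k with
  | zero => simp
  | succ k ih =>
    rw [show 4 * (k + 1) = 4 * k + 1 + 1 + 1 + 1 by ring, Finset.sum_range_succ,
      Finset.sum_range_succ, Finset.sum_range_succ, Finset.sum_range_succ, ih,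
      Finset.sum_range_succ]
    ring

theorem sum_four' (f : ℕ → ℕ) (k : ℕ) : ∑ p ∈ range (4 * k + 1), f p =
    f 0 + ∑ b ∈ range k, (f (4 * b + 1) + f (4 * b + 2) + f (4 * b + 3) + f (4 * b + 4)) := by
  induction k with
  | zero => simp
  | succ k ih =>
    rw [show 4 * (k + 1) + 1 = 4 * k + 1 + 1 + 1 + 1 + 1 by ring, Finset.sum_range_succ,
      Finset.sum_range_succ, Finset.sum_range_succ, Finset.sum_range_succ, ih,
      Finset.sum_range_succ]
    ring

theorem sum_le_of (f : ℕ → ℕ) (k c r : ℕ) (h : ∀ b < k, f b ≤ c + if b < r then 1 else 0) :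
    ∑ b ∈ range k, f b ≤ c * k + r := by
  refine (Finset.sum_le_sum fun b hb => h b (Finset.mem_range.mp hb)).trans ?_
  rw [Finset.sum_add_distrib, Finset.sum_const, Finset.card_range, smul_eq_mul,
    Finset.sum_boole, Nat.cast_id, mul_comm]
  refine Nat.add_le_add_left ?_ _
  refine (Finset.card_le_card (t := range r) ?_).trans (by simp)
  intro b hb
  simp only [Finset.mem_filter] at hb
  exact Finset.mem_range.mpr hb.2

/-- Weights in blocks of four. -/
def blocks (w0 w1 w2 w3 : ℕ → ℕ) (p : ℕ) : ℕ :=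
  if p % 4 = 0 then w0 (p / 4) else if p % 4 = 1 then w1 (p / 4)
    else if p % 4 = 2 then w2 (p / 4) else w3 (p / 4)

section

variable (w0 w1 w2 w3 : ℕ → ℕ)

theorem blocks_0 (b : ℕ) : blocks w0 w1 w2 w3 (4 * b) = w0 b := by
  unfold blocks
  rw [if_pos (by omega), show 4 * b / 4 = b by omega]

theorem blocks_1 (b : ℕ) : blocks w0 w1 w2 w3 (4 * b + 1) = w1 b := by
  unfold blocks
  rw [if_neg (by omega), if_pos (by omega), show (4 * b + 1) / 4 = b by omega]

theorem blocks_2 (b : ℕ) : blocks w0 w1 w2 w3 (4 * b + 2) = w2 b := by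
  unfold blocks
  rw [if_neg (by omega), if_neg (by omega), if_pos (by omega),
    show (4 * b + 2) / 4 = b by omega]

theorem blocks_3 (b : ℕ) : blocks w0 w1 w2 w3 (4 * b + 3) = w3 b := by
  unfold blocks
  rw [if_neg (by omega), if_neg (by omega), if_neg (by omega),
    show (4 * b + 3) / 4 = b by omega]

theorem blocks_4 (b : ℕ) : blocks w0 w1 w2 w3 (4 * b + 4) = w0 (b + 1) := by
  rw [show 4 * b + 4 = 4 * (b + 1) by ring, blocks_0]

end

/-- The facts about one block. -/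
theorem block_facts {w0 w1 w2 w3 : ℕ → ℕ} {m : ℕ} {e : ℕ → ℕ} (h1 : ∀ p, e p ≤ 1)
    (h0 : ∀ p, m < blocks w0 w1 w2 w3 p → e p = 0)
    (h2 : ∀ p, m < blocks w0 w1 w2 w3 p + blocks w0 w1 w2 w3 (p + 1) → e p + e (p + 1) ≤ 1)
    (b : ℕ) :
    (e (4 * b) ≤ 1 ∧ e (4 * b + 1) ≤ 1 ∧ e (4 * b + 2) ≤ 1 ∧ e (4 * b + 3) ≤ 1 ∧
      e (4 * b + 4) ≤ 1) ∧
    (m < w0 b → e (4 * b) = 0) ∧ (m < w1 b → e (4 * b + 1) = 0) ∧
    (m < w2 b → e (4 * b + 2) = 0) ∧ (m < w3 b → e (4 * b + 3) = 0) ∧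
    (m < w0 (b + 1) → e (4 * b + 4) = 0) ∧
    (m < w0 b + w1 b → e (4 * b) + e (4 * b + 1) ≤ 1) ∧
    (m < w1 b + w2 b → e (4 * b + 1) + e (4 * b + 2) ≤ 1) ∧
    (m < w2 b + w3 b → e (4 * b + 2) + e (4 * b + 3) ≤ 1) ∧
    (m < w3 b + w0 (b + 1) → e (4 * b + 3) + e (4 * b + 4) ≤ 1) := by
  have z0 := h0 (4 * b)
  have z1 := h0 (4 * b + 1)
  have z2 := h0 (4 * b + 2)
  have z3 := h0 (4 * b + 3)
  have z4 := h0 (4 * b + 4)
  have c0 := h2 (4 * b)
  have c1 := h2 (4 * b + 1)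
  have c2 := h2 (4 * b + 2)
  have c3 := h2 (4 * b + 3)
  simp only [add_assoc, Nat.reduceAdd] at c0 c1 c2 c3
  rw [blocks_0] at z0
  rw [blocks_1] at z1
  rw [blocks_2] at z2
  rw [blocks_3] at z3
  rw [blocks_4] at z4
  rw [blocks_0, blocks_1] at c0
  rw [blocks_1, blocks_2] at c1
  rw [blocks_2, blocks_3] at c2
  rw [blocks_3, blocks_4] at c3
  exact ⟨⟨h1 _, h1 _, h1 _, h1 _, h1 _⟩, z0, z1, z2, z3, z4, c0, c1, c2, c3⟩

/-- The weights for `n = 4 k + 3`. -/
def wA (k : ℕ) : ℕ → ℕ :=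
  blocks (fun b => b + 1) (fun _ => k + 1) (fun b => k + 1 + b + 1) (fun _ => 2 * (k + 1))

theorem good_A (k : ℕ) : Good (4 * k + 3) (wA k) := by
  intro m e h1 h0 h2
  have hb := block_facts h1 h0 h2
  have hs : ∑ p ∈ range (4 * k + 3), e p =
      ∑ p ∈ range (4 * k), e p + e (4 * k) + e (4 * k + 1) + e (4 * k + 2) := by
    rw [Finset.sum_range_succ, Finset.sum_range_succ, Finset.sum_range_succ]
  have hs' : ∑ p ∈ range (4 * k + 3), e p =
      ∑ p ∈ range (4 * k + 1), e p + e (4 * k + 1) + e (4 * k + 2) := by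
    rw [Finset.sum_range_succ, Finset.sum_range_succ]
  have hk := hb k
  rcases lt_or_ge m (k + 1) with hm | hm
  · have : ∑ p ∈ range (4 * k), e p ≤ 0 * k + m := by
      rw [sum_four]
      apply sum_le_of
      intro b hbk
      have := hb b
      split_ifs <;> omega
    omega
  rcases lt_or_ge m (2 * (k + 1)) with hm2 | hm2
  · have : ∑ p ∈ range (4 * k), e p ≤ 1 * k + (m - (k + 1)) := by
      rw [sum_four]
      apply sum_le_of
      intro b hbk
      have := hb b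
      split_ifs <;> omega
    omega
  rcases lt_or_ge m (3 * (k + 1)) with hm3 | hm3
  · have : ∑ p ∈ range (4 * k + 1), e p ≤ e 0 + (2 * k + (m - 2 * (k + 1))) := by
      rw [sum_four']
      refine Nat.add_le_add_left ?_ _
      apply sum_le_of
      intro b hbk
      have := hb b
      split_ifs <;> omega
    have := h1 0
    omega
  · have : ∑ p ∈ range (4 * k), e p ≤ 3 * k + (m - 3 * (k + 1)) := by
      rw [sum_four]
      apply sum_le_of
      intro b hbk
      have := hb b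
      split_ifs <;> omega
    omega

/-- The weights for `n = 4 k + 2`. -/
def wB (k : ℕ) : ℕ → ℕ :=
  blocks (fun b => b + 1) (fun _ => k + 1) (fun b => k + 1 + b + 1)
    (fun b => if b + 1 < k then 2 * k + 1 else 2 * k + 2)

theorem good_B (k : ℕ) (hk1 : 1 ≤ k) : Good (4 * k + 2) (wB k) := by
  obtain ⟨l, rfl⟩ : ∃ l, k = l + 1 := ⟨k - 1, by omega⟩
  intro m e h1 h0 h2
  have hb := block_facts h1 h0 h2
  have hbl := hb l
  have hbk := hb (l + 1)
  rw [if_neg (by omega)] at hbl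
  have hb' : ∀ b < l, _ := fun b hbl => by
    have := hb b
    rw [if_pos (by omega)] at this
    exact this
  clear hb
  have e4 : 4 * l + 4 = 4 * (l + 1) := by ring
  have hs : ∑ p ∈ range (4 * (l + 1) + 2), e p =
      ∑ p ∈ range (4 * l), e p + e (4 * l) + e (4 * l + 1) + e (4 * l + 2) + e (4 * l + 3)
        + e (4 * (l + 1)) + e (4 * (l + 1) + 1) := by
    rw [Finset.sum_range_succ, Finset.sum_range_succ, show 4 * (l + 1) = 4 * l + 4 by ring,
      Finset.sum_range_succ, Finset.sum_range_succ, Finset.sum_range_succ, Finset.sum_range_succ]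
  have hs' : ∑ p ∈ range (4 * (l + 1) + 2), e p =
      ∑ p ∈ range (4 * l + 1), e p + e (4 * l + 1) + e (4 * l + 2) + e (4 * l + 3)
        + e (4 * (l + 1)) + e (4 * (l + 1) + 1) := by
    rw [hs, Finset.sum_range_succ]
  rw [e4] at hbl
  rcases lt_or_ge m (l + 2) with hm | hm
  · have : ∑ p ∈ range (4 * l), e p ≤ 0 * l + min m l := by
      rw [sum_four]
      apply sum_le_of
      intro b hbk
      have := hb' b hbk
      split_ifs <;> omega
    omega
  rcases lt_or_ge m (2 * l + 3) with hm2 | hm2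
  · have : ∑ p ∈ range (4 * l), e p ≤ 1 * l + (m - (l + 2)) := by
      rw [sum_four]
      apply sum_le_of
      intro b hbk
      have := hb' b hbk
      split_ifs <;> omega
    omega
  rcases lt_or_ge m (3 * l + 5) with hm3 | hm3
  · have : ∑ p ∈ range (4 * l + 1), e p ≤ e 0 + (2 * l + (m - (2 * l + 4))) := by
      rw [sum_four']
      refine Nat.add_le_add_left ?_ _
      apply sum_le_of
      intro b hbk
      have := hb' b hbk
      split_ifs <;> omega
    have := h1 0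
    omega
  · have : ∑ p ∈ range (4 * l), e p ≤ 3 * l + min (m - (3 * l + 5)) l := by
      rw [sum_four]
      apply sum_le_of
      intro b hbk
      have := hb' b hbk
      split_ifs <;> omega
    omega

/-- The weights for `n = 4 k + 1`. -/
def wC (k : ℕ) : ℕ → ℕ :=
  blocks (fun b => b + 1) (fun _ => k + 1) (fun b => k + 1 + b + 1)
    (fun b => if b + 1 < k then 2 * k + 1 else k + 1)

theorem good_C (k : ℕ) (hk1 : 1 ≤ k) : Good (4 * k + 1) (wC k) := by
  obtain ⟨l, rfl⟩ : ∃ l, k = l + 1 := ⟨k - 1, by omega⟩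
  intro m e h1 h0 h2
  have hb := block_facts h1 h0 h2
  have hbl := hb l
  have hbk := hb (l + 1)
  rw [if_neg (by omega)] at hbl
  have hb' : ∀ b < l, _ := fun b hbl => by
    have := hb b
    rw [if_pos (by omega)] at this
    exact this
  clear hb
  have e4 : 4 * l + 4 = 4 * (l + 1) := by ring
  have hs : ∑ p ∈ range (4 * (l + 1) + 1), e p =
      ∑ p ∈ range (4 * l), e p + e (4 * l) + e (4 * l + 1) + e (4 * l + 2) + e (4 * l + 3)
        + e (4 * (l + 1)) := by
    rw [Finset.sum_range_succ, show 4 * (l + 1) = 4 * l + 4 by ring,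
      Finset.sum_range_succ, Finset.sum_range_succ, Finset.sum_range_succ, Finset.sum_range_succ]
  have hs' : ∑ p ∈ range (4 * (l + 1) + 1), e p =
      ∑ p ∈ range (4 * l + 1), e p + e (4 * l + 1) + e (4 * l + 2) + e (4 * l + 3)
        + e (4 * (l + 1)) := by
    rw [hs, Finset.sum_range_succ]
  rw [e4] at hbl
  rcases lt_or_ge m (l + 2) with hm | hm
  · have : ∑ p ∈ range (4 * l), e p ≤ 0 * l + min m l := by
      rw [sum_four]
      apply sum_le_of
      intro b hbk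
      have := hb' b hbk
      split_ifs <;> omega
    omega
  rcases lt_or_ge m (2 * l + 3) with hm2 | hm2
  · have : ∑ p ∈ range (4 * l), e p ≤ 1 * l + (m - (l + 2)) := by
      rw [sum_four]
      apply sum_le_of
      intro b hbk
      have := hb' b hbk
      split_ifs <;> omega
    omega
  rcases lt_or_ge m (3 * l + 5) with hm3 | hm3
  · have : ∑ p ∈ range (4 * l + 1), e p ≤ e 0 + (2 * l + (m - (2 * l + 4))) := by
      rw [sum_four']
      refine Nat.add_le_add_left ?_ _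
      apply sum_le_of
      intro b hbk
      have := hb' b hbk
      split_ifs <;> omega
    have := h1 0
    omega
  · have : ∑ p ∈ range (4 * l), e p ≤ 3 * l + (m - (3 * l + 5)) := by
      rw [sum_four]
      apply sum_le_of
      intro b hbk
      have := hb' b hbk
      split_ifs <;> omega
    omega

theorem sum_four3 (f : ℕ → ℕ) (k : ℕ) : ∑ p ∈ range (4 * k + 3), f p =
    f 0 + f 1 + f 2 +
      ∑ b ∈ range k, (f (4 * b + 3) + f (4 * b + 4) + f (4 * b + 5) + f (4 * b + 6)) := by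
  induction k with
  | zero => simp [Finset.sum_range_succ]
  | succ k ih =>
    rw [show 4 * (k + 1) + 3 = 4 * k + 3 + 1 + 1 + 1 + 1 by ring, Finset.sum_range_succ,
      Finset.sum_range_succ, Finset.sum_range_succ, Finset.sum_range_succ, ih,
      Finset.sum_range_succ]
    ring

/-- The weights for `n = 4 k`, where `k = l + 5`. -/
def wD (l : ℕ) : ℕ → ℕ :=
  blocks (fun b => if b = 0 then 1 else if b ≤ l + 3 then l + 5 else 2)
    (fun b => if b = 0 then 2 * l + 10 else if b ≤ l + 3 then l + 7 + b else 2 * l + 10)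
    (fun b => if b = 0 then 2 * l + 8 else if b ≤ l + 1 then 2 * l + 9
      else if b ≤ l + 3 then 2 * l + 10 else l + 6)
    (fun b => if b ≤ l + 2 then b + 3 else if b ≤ l + 3 then l + 5 else l + 6)

theorem good_D (l : ℕ) : Good (4 * (l + 5)) (wD l) := by
  intro m e h1 h0 h2
  have hb := block_facts h1 h0 h2
  have b0 := hb 0
  have b2 := hb (l + 2)
  have b3 := hb (l + 3)
  have b4 := hb (l + 4)
  simp only [if_true, if_neg (show ¬ (0 + 1 = 0) by omega), if_pos (show 0 + 1 ≤ l + 3 by omega),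
    if_pos (show 0 ≤ l + 2 by omega)] at b0
  simp only [if_neg (show ¬ (l + 2 = 0) by omega), if_pos (show l + 2 ≤ l + 3 by omega),
    if_neg (show ¬ (l + 2 ≤ l + 1) by omega), if_pos (show l + 2 ≤ l + 2 by omega),
    if_neg (show ¬ (l + 2 + 1 = 0) by omega), if_pos (show l + 2 + 1 ≤ l + 3 by omega)] at b2
  simp only [if_neg (show ¬ (l + 3 = 0) by omega), if_pos (show l + 3 ≤ l + 3 by omega),
    if_neg (show ¬ (l + 3 ≤ l + 1) by omega), if_neg (show ¬ (l + 3 ≤ l + 2) by omega),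
    if_neg (show ¬ (l + 3 + 1 = 0) by omega), if_neg (show ¬ (l + 3 + 1 ≤ l + 3) by omega)] at b3
  simp only [if_neg (show ¬ (l + 4 = 0) by omega), if_neg (show ¬ (l + 4 ≤ l + 3) by omega),
    if_neg (show ¬ (l + 4 ≤ l + 1) by omega), if_neg (show ¬ (l + 4 ≤ l + 2) by omega)] at b4
  have hb' : ∀ b < l + 1, _ := fun b hbl => by
    have := hb (b + 1)
    simp only [if_neg (show ¬ (b + 1 = 0) by omega), if_pos (show b + 1 ≤ l + 3 by omega),
      if_pos (show b + 1 ≤ l + 1 by omega), if_pos (show b + 1 ≤ l + 2 by omega),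
      if_neg (show ¬ (b + 1 + 1 = 0) by omega), if_pos (show b + 1 + 1 ≤ l + 3 by omega)] at this
    exact this
  have hs : ∑ p ∈ range (4 * (l + 5)), e p =
      ∑ b ∈ range (l + 1), (e (4 * (b + 1)) + e (4 * (b + 1) + 1) + e (4 * (b + 1) + 2)
          + e (4 * (b + 1) + 3))
        + (e 0 + e 1 + e 2 + e 3)
        + (e (4 * (l + 2)) + e (4 * (l + 2) + 1) + e (4 * (l + 2) + 2) + e (4 * (l + 2) + 3))
        + (e (4 * (l + 3)) + e (4 * (l + 3) + 1) + e (4 * (l + 3) + 2) + e (4 * (l + 3) + 3))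
        + (e (4 * (l + 4)) + e (4 * (l + 4) + 1) + e (4 * (l + 4) + 2) + e (4 * (l + 4) + 3)) := by
    rw [sum_four, Finset.sum_range_succ, Finset.sum_range_succ, Finset.sum_range_succ,
      Finset.sum_range_succ']
  simp only [Nat.mul_zero, Nat.zero_add] at b0
  rcases lt_or_ge m (l + 5) with hm | hm
  · have : ∑ b ∈ range (l + 1), (e (4 * (b + 1)) + e (4 * (b + 1) + 1) + e (4 * (b + 1) + 2)
          + e (4 * (b + 1) + 3)) ≤ 0 * (l + 1) + min (m - 3) (l + 1) := by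
      apply sum_le_of
      intro b hbk
      have := hb' b hbk
      split_ifs <;> omega
    omega
  rcases lt_or_ge m (2 * l + 9) with hm2 | hm2
  · have hs2 : ∑ p ∈ range (4 * (l + 5)), e p = e 0 + e 1 + e 2 +
        ∑ b ∈ range (l + 1), (e (4 * b + 3) + e (4 * b + 4) + e (4 * b + 5) + e (4 * b + 6))
        + e (4 * (l + 1) + 3)
        + (e (4 * (l + 2)) + e (4 * (l + 2) + 1) + e (4 * (l + 2) + 2) + e (4 * (l + 2) + 3))
        + (e (4 * (l + 3)) + e (4 * (l + 3) + 1) + e (4 * (l + 3) + 2) + e (4 * (l + 3) + 3))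
        + (e (4 * (l + 4)) + e (4 * (l + 4) + 1) + e (4 * (l + 4) + 2) + e (4 * (l + 4) + 3)) := by
      rw [← sum_four3, ← Finset.sum_range_succ, sum_four, Finset.sum_range_succ,
        Finset.sum_range_succ, Finset.sum_range_succ, ← sum_four]
      ring_nf
    have g : ∀ b < l + 1, (e (4 * b + 3) ≤ 1 ∧ e (4 * b + 4) ≤ 1 ∧ e (4 * b + 5) ≤ 1) ∧
        (m < 2 * l + 9 → e (4 * b + 6) = 0) ∧ (m < l + 8 + b → e (4 * b + 5) = 0) ∧
        (m < l + 8 + b → e (4 * b + 3) + e (4 * b + 4) ≤ 1) ∧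
        (m < 2 * l + 13 + b → e (4 * b + 4) + e (4 * b + 5) ≤ 1) := by
      intro b hbl
      obtain ⟨-, -, -, -, -, -, -, -, -, t1⟩ := hb b
      simp only [if_neg (show ¬ (b + 1 = 0) by omega), if_pos (show b + 1 ≤ l + 3 by omega),
        if_pos (show b ≤ l + 2 by omega)] at t1
      obtain ⟨-, -, t2, t3, -, -, t4, -⟩ := hb' b hbl
      rw [show 4 * (b + 1) = 4 * b + 4 by ring] at t2 t3 t4
      simp only [Nat.add_assoc, Nat.reduceAdd] at t2 t3 t4
      exact ⟨⟨h1 _, h1 _, h1 _⟩, t3, fun h => t2 (by omega), fun h => t1 (by omega),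
        fun h => t4 (by omega)⟩
    have u1 : m < 2 * l + 9 → e (4 * (l + 1) + 3) + e (4 * (l + 2)) ≤ 1 := by
      intro h
      obtain ⟨-, -, -, -, -, -, -, -, -, t1⟩ := hb' l (by omega)
      exact t1 (by omega)
    obtain ⟨⟨v1, v2, v3, v4, v5⟩, -, v6, v7, -, -, -, v8, v9, v10⟩ := b0
    obtain ⟨⟨x1, x2, x3, x4, x5⟩, -, x6, x7, -, -, -, -, -, x8⟩ := b2
    obtain ⟨⟨y1, y2, y3, y4, y5⟩, -, y6, y7, -, -, -, -, -, y8⟩ := b3
    obtain ⟨⟨z1, z2, z3, z4, z5⟩, -, z6, z7, z8, -, -, -, z9, -⟩ := b4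
    have x8' : e (4 * (l + 2) + 3) + e (4 * (l + 3)) ≤ 1 := x8 (by omega)
    have y8' : m < l + 5 + 2 → e (4 * (l + 3) + 3) + e (4 * (l + 4)) ≤ 1 := y8
    have x6' := x6 (by omega)
    have x7' := x7 (by omega)
    have y6' := y6 (by omega)
    have y7' := y7 (by omega)
    have z6' := z6 (by omega)
    have z9' := z9 (by omega)
    have v6' := v6 (by omega)
    have u1' := u1 (by omega)
    clear x8 y8 x6 x7 y6 y7 z6 z9 v6 u1 hb hb' h0 h2 hs
    rcases lt_or_ge m (2 * l + 8) with hm3 | hm3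
    · have : ∑ b ∈ range (l + 1), (e (4 * b + 3) + e (4 * b + 4) + e (4 * b + 5)
          + e (4 * b + 6)) ≤ 1 * (l + 1) + (m - (l + 7)) := by
        apply sum_le_of
        intro b hbk
        have := g b hbk
        split_ifs <;> omega
      have v7' := v7 (by omega)
      clear g v7 v8 v9 v10
      omega
    · have g0 := g 0 (by omega)
      have : ∑ b ∈ range l, (e (4 * (b + 1) + 3) + e (4 * (b + 1) + 4) + e (4 * (b + 1) + 5)
          + e (4 * (b + 1) + 6)) ≤ 1 * l + l := by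
        apply sum_le_of
        intro b hbk
        have := g (b + 1) (by omega)
        rw [if_pos hbk]
        omega
      rw [Finset.sum_range_succ'] at hs2
      simp only [Nat.mul_zero, Nat.zero_add] at hs2 g0
      clear g
      omega
  rcases lt_or_ge m (2 * l + 10) with hm3 | hm3
  · have : ∑ b ∈ range (l + 1), (e (4 * (b + 1)) + e (4 * (b + 1) + 1) + e (4 * (b + 1) + 2)
          + e (4 * (b + 1) + 3)) ≤ 2 * (l + 1) + 0 := by
      apply sum_le_of
      intro b hbk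
      obtain ⟨-, -, -, -, -, -, t1, -, t2, -⟩ := hb' b hbk
      have t1' := t1 (by omega)
      have t2' := t2 (by omega)
      rw [if_neg (by omega)]
      omega
    obtain ⟨⟨v1, v2, v3, v4, v5⟩, -, v6, v7, -, -, -, v8, v9, v10⟩ := b0
    obtain ⟨⟨x1, x2, x3, x4, x5⟩, -, x6, x7, -, -, x9, -, -, x8⟩ := b2
    obtain ⟨⟨y1, y2, y3, y4, y5⟩, -, y6, y7, -, -, -, -, -, y8⟩ := b3
    obtain ⟨⟨z1, z2, z3, z4, z5⟩, -, z6, z7, z8, -, -, -, z9, -⟩ := b4
    have x8' : e (4 * (l + 2) + 3) + e (4 * (l + 3)) ≤ 1 := x8 (by omega)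
    have x7' := x7 (by omega)
    have x9' := x9 (by omega)
    have y6' := y6 (by omega)
    have y7' := y7 (by omega)
    have z6' := z6 (by omega)
    have z9' := z9 (by omega)
    have v6' := v6 (by omega)
    have v9' := v9 (by omega)
    clear x8 y8 x6 x7 x9 y6 y7 z6 z7 z8 z9 v6 v7 v8 v9 v10 hb hb' h0 h2
    omega
  rcases lt_or_ge m (3 * l + 15) with hm4 | hm4
  · have : ∑ b ∈ range (l + 1), (e (4 * (b + 1)) + e (4 * (b + 1) + 1) + e (4 * (b + 1) + 2)
          + e (4 * (b + 1) + 3)) ≤ 2 * (l + 1) + min (m - (2 * l + 12)) (l + 1) := by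
      apply sum_le_of
      intro b hbk
      obtain ⟨⟨t5, t6, t7, t8, -⟩, -, -, -, -, -, t1, t3, t2, -⟩ := hb' b hbk
      have t3' := t3 (by omega)
      split_ifs <;> omega
    obtain ⟨⟨v1, v2, v3, v4, -⟩, -, -, -, -, -, v5, v6, v7, -⟩ := b0
    obtain ⟨⟨x1, x2, x3, x4, -⟩, -, -, -, -, -, x5, x6, x7, -⟩ := b2
    obtain ⟨⟨y1, y2, y3, y4, -⟩, -, -, -, -, -, y5, y6, y7, -⟩ := b3
    obtain ⟨⟨z1, z2, z3, z4, -⟩, -, -, -, -, -, z5, z6, z7, -⟩ := b4
    have v6' := v6 (by omega)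
    have x6' := x6 (by omega)
    have x7' := x7 (by omega)
    have y5' := y5 (by omega)
    have y7' := y7 (by omega)
    have z6' := z6 (by omega)
    clear v6 x6 x7 y5 y6 y7 z6 hb hb' h0 h2
    omega
  · have : ∑ b ∈ range (l + 1), (e (4 * (b + 1)) + e (4 * (b + 1) + 1) + e (4 * (b + 1) + 2)
          + e (4 * (b + 1) + 3)) ≤ 3 * (l + 1) + min (m - (3 * l + 16)) (l + 1) := by
      apply sum_le_of
      intro b hbk
      obtain ⟨⟨t5, t6, t7, t8, -⟩, -, -, -, -, -, -, t3, -, -⟩ := hb' b hbk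
      split_ifs <;> omega
    obtain ⟨⟨v1, v2, v3, v4, -⟩, -, -, -, -, -, -, v6, -, -⟩ := b0
    obtain ⟨⟨x1, x2, x3, x4, -⟩, -, -, -, -, -, -, x6, -, -⟩ := b2
    obtain ⟨⟨y1, y2, y3, y4, -⟩, -, -, -, -, -, -, y6, -, -⟩ := b3
    obtain ⟨⟨z1, z2, z3, z4, -⟩, -, -, -, -, -, -, z6, -, -⟩ := b4
    clear hb hb' h0 h2
    omega

/-- The weights for small `n`, given as a list. -/
def wList (L : List ℕ) (p : ℕ) : ℕ := L.getD p 0

theorem good_small {L : List ℕ} {n : ℕ} (h : ∀ m < n, ∀ e : ℕ → ℕ, (∀ p, e p ≤ 1) →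
    (∀ p, m < wList L p → e p = 0) →
    (∀ p, m < wList L p + wList L (p + 1) → e p + e (p + 1) ≤ 1) → ∑ p ∈ range n, e p ≤ m) :
    Good n (wList L) := by
  intro m e h1 h0 h2
  rcases lt_or_ge m n with hm | hm
  · exact h m hm e h1 h0 h2
  · refine le_trans (Finset.sum_le_sum fun p _ => h1 p) ?_
    simpa using hm

theorem good_2 : Good 2 (wList [1, 1]) := by
  apply good_small
  intro m hm e h1 h0 h2
  have a0 := h1 0
  have a1 := h1 1
  have b0 := h0 0
  have c0 := h2 0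
  simp only [wList, List.getD_cons_zero, List.getD_cons_succ, Nat.zero_add] at b0 c0
  simp only [Finset.sum_range_succ, Finset.sum_range_zero]
  have b1 := h0 1
  simp only [wList, List.getD_cons_zero, List.getD_cons_succ] at b1
  omega

theorem good_4 : Good 4 (wList [1, 2, 2, 2]) := by
  apply good_small
  intro m hm e h1 h0 h2
  have h1' : e 0 ≤ 1 ∧ e 1 ≤ 1 ∧ e 2 ≤ 1 ∧ e 3 ≤ 1 := ⟨h1 _, h1 _, h1 _, h1 _⟩
  have h0' : _ ∧ _ ∧ _ ∧ _ := ⟨h0 0, h0 1, h0 2, h0 3⟩
  have h2' : _ ∧ _ ∧ _ := ⟨h2 0, h2 1, h2 2⟩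
  simp only [wList, List.getD_cons_zero, List.getD_cons_succ, Nat.reduceAdd] at h0' h2'
  simp only [Finset.sum_range_succ, Finset.sum_range_zero]
  clear h1 h0 h2
  interval_cases m <;> omega

theorem good_8 : Good 8 (wList [1, 4, 4, 2, 2, 4, 3, 3]) := by
  apply good_small
  intro m hm e h1 h0 h2
  have h1' : e 0 ≤ 1 ∧ e 1 ≤ 1 ∧ e 2 ≤ 1 ∧ e 3 ≤ 1 ∧ e 4 ≤ 1 ∧ e 5 ≤ 1 ∧ e 6 ≤ 1 ∧ e 7 ≤ 1 :=
    ⟨h1 _, h1 _, h1 _, h1 _, h1 _, h1 _, h1 _, h1 _⟩
  have h0' : _ ∧ _ ∧ _ ∧ _ ∧ _ ∧ _ ∧ _ ∧ _ :=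
    ⟨h0 0, h0 1, h0 2, h0 3, h0 4, h0 5, h0 6, h0 7⟩
  have h2' : _ ∧ _ ∧ _ ∧ _ ∧ _ ∧ _ ∧ _ := ⟨h2 0, h2 1, h2 2, h2 3, h2 4, h2 5, h2 6⟩
  simp only [wList, List.getD_cons_zero, List.getD_cons_succ, Nat.reduceAdd] at h0' h2'
  simp only [Finset.sum_range_succ, Finset.sum_range_zero]
  clear h1 h0 h2
  interval_cases m <;> simp only [Nat.reduceLT, true_imp_iff, false_imp_iff, true_and, and_true]
    at h0' h2' <;> omega

theorem good_12 : Good 12 (wList [1, 6, 5, 2, 3, 6, 6, 3, 3, 6, 4, 4]) := by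
  apply good_small
  intro m hm e h1 h0 h2
  have h1' : e 0 ≤ 1 ∧ e 1 ≤ 1 ∧ e 2 ≤ 1 ∧ e 3 ≤ 1 ∧ e 4 ≤ 1 ∧ e 5 ≤ 1 ∧ e 6 ≤ 1 ∧ e 7 ≤ 1 ∧ e 8 ≤ 1 ∧ e 9 ≤ 1 ∧ e 10 ≤ 1 ∧ e 11 ≤ 1 :=
    ⟨h1 _, h1 _, h1 _, h1 _, h1 _, h1 _, h1 _, h1 _, h1 _, h1 _, h1 _, h1 _⟩
  have h0' : _ ∧ _ ∧ _ ∧ _ ∧ _ ∧ _ ∧ _ ∧ _ ∧ _ ∧ _ ∧ _ ∧ _ :=
    ⟨h0 0, h0 1, h0 2, h0 3, h0 4, h0 5, h0 6, h0 7, h0 8, h0 9, h0 10, h0 11⟩
  have h2' : _ ∧ _ ∧ _ ∧ _ ∧ _ ∧ _ ∧ _ ∧ _ ∧ _ ∧ _ ∧ _ :=
    ⟨h2 0, h2 1, h2 2, h2 3, h2 4, h2 5, h2 6, h2 7, h2 8, h2 9, h2 10⟩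
  simp only [wList, List.getD_cons_zero, List.getD_cons_succ, Nat.reduceAdd] at h0' h2'
  simp only [Finset.sum_range_succ, Finset.sum_range_zero]
  clear h1 h0 h2
  interval_cases m <;> simp only [Nat.reduceLT, true_imp_iff, false_imp_iff, true_and, and_true]
    at h0' h2' <;> omega

theorem good_16 : Good 16 (wList [1, 8, 7, 2, 4, 6, 7, 3, 4, 8, 8, 4, 4, 8, 6, 5]) := by
  apply good_small
  intro m hm e h1 h0 h2
  have h1' : e 0 ≤ 1 ∧ e 1 ≤ 1 ∧ e 2 ≤ 1 ∧ e 3 ≤ 1 ∧ e 4 ≤ 1 ∧ e 5 ≤ 1 ∧ e 6 ≤ 1 ∧ e 7 ≤ 1 ∧ e 8 ≤ 1 ∧ e 9 ≤ 1 ∧ e 10 ≤ 1 ∧ e 11 ≤ 1 ∧ e 12 ≤ 1 ∧ e 13 ≤ 1 ∧ e 14 ≤ 1 ∧ e 15 ≤ 1 :=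
    ⟨h1 _, h1 _, h1 _, h1 _, h1 _, h1 _, h1 _, h1 _, h1 _, h1 _, h1 _, h1 _, h1 _, h1 _, h1 _, h1 _⟩
  have h0' : _ ∧ _ ∧ _ ∧ _ ∧ _ ∧ _ ∧ _ ∧ _ ∧ _ ∧ _ ∧ _ ∧ _ ∧ _ ∧ _ ∧ _ ∧ _ :=
    ⟨h0 0, h0 1, h0 2, h0 3, h0 4, h0 5, h0 6, h0 7, h0 8, h0 9, h0 10, h0 11, h0 12, h0 13, h0 14, h0 15⟩
  have h2' : _ ∧ _ ∧ _ ∧ _ ∧ _ ∧ _ ∧ _ ∧ _ ∧ _ ∧ _ ∧ _ ∧ _ ∧ _ ∧ _ ∧ _ :=
    ⟨h2 0, h2 1, h2 2, h2 3, h2 4, h2 5, h2 6, h2 7, h2 8, h2 9, h2 10, h2 11, h2 12, h2 13, h2 14⟩
  simp only [wList, List.getD_cons_zero, List.getD_cons_succ, Nat.reduceAdd] at h0' h2'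
  simp only [Finset.sum_range_succ, Finset.sum_range_zero]
  clear h1 h0 h2
  interval_cases m <;> simp only [Nat.reduceLT, true_imp_iff, false_imp_iff, true_and, and_true]
    at h0' h2' <;> omega


/-! ### The total weights -/

theorem sum_affine (c k : ℕ) : ∑ b ∈ range k, (2 * b + c) + k = k * k + c * k := by
  induction k with
  | zero => simp
  | succ k ih =>
    rw [Finset.sum_range_succ]
    linarith

theorem total_A (k : ℕ) : ∑ p ∈ range (4 * k + 3), wA k p = 5 * k ^ 2 + 9 * k + 4 := by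
  rw [Finset.sum_range_succ, Finset.sum_range_succ, Finset.sum_range_succ, sum_four]
  unfold wA
  simp only [blocks_0, blocks_1, blocks_2, blocks_3]
  have := sum_affine (4 * k + 6) k
  have h : ∑ b ∈ range k, (b + 1 + (k + 1) + (k + 1 + b + 1) + 2 * (k + 1)) =
      ∑ b ∈ range k, (2 * b + (4 * k + 6)) := Finset.sum_congr rfl fun b _ => by ring
  rw [h]
  nlinarith

theorem total_B (l : ℕ) : ∑ p ∈ range (4 * (l + 1) + 2), wB (l + 1) p =
    5 * (l + 1) ^ 2 + 6 * (l + 1) + 3 := by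
  rw [Finset.sum_range_succ, Finset.sum_range_succ, sum_four, Finset.sum_range_succ]
  unfold wB
  simp only [blocks_0, blocks_1, blocks_2, blocks_3]
  rw [if_neg (by omega)]
  have := sum_affine (4 * l + 9) l
  have h : ∑ b ∈ range l, (b + 1 + (l + 1 + 1) + (l + 1 + 1 + b + 1) +
      if b + 1 < l + 1 then 2 * (l + 1) + 1 else 2 * (l + 1) + 2) =
      ∑ b ∈ range l, (2 * b + (4 * l + 9)) := Finset.sum_congr rfl fun b hb => by
    rw [Finset.mem_range] at hb
    rw [if_pos (by omega)]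
    ring
  rw [h]
  nlinarith

theorem total_C (l : ℕ) : ∑ p ∈ range (4 * (l + 1) + 1), wC (l + 1) p =
    5 * (l + 1) ^ 2 + 4 * (l + 1) + 1 := by
  rw [Finset.sum_range_succ, sum_four, Finset.sum_range_succ]
  unfold wC
  simp only [blocks_0, blocks_1, blocks_2, blocks_3]
  rw [if_neg (by omega)]
  have := sum_affine (4 * l + 9) l
  have h : ∑ b ∈ range l, (b + 1 + (l + 1 + 1) + (l + 1 + 1 + b + 1) +
      if b + 1 < l + 1 then 2 * (l + 1) + 1 else l + 1 + 1) =
      ∑ b ∈ range l, (2 * b + (4 * l + 9)) := Finset.sum_congr rfl fun b hb => by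
    rw [Finset.mem_range] at hb
    rw [if_pos (by omega)]
    ring
  rw [h]
  nlinarith

theorem total_D (l : ℕ) : ∑ p ∈ range (4 * (l + 5)), wD l p =
    5 * (l + 5) ^ 2 + (l + 5) + 1 := by
  rw [sum_four, Finset.sum_range_succ, Finset.sum_range_succ, Finset.sum_range_succ,
    Finset.sum_range_succ']
  unfold wD
  simp only [blocks_0, blocks_1, blocks_2, blocks_3]
  have := sum_affine (4 * l + 26) (l + 1)
  have h : ∑ b ∈ range (l + 1),
      ((if b + 1 = 0 then 1 else if b + 1 ≤ l + 3 then l + 5 else 2) +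
        (if b + 1 = 0 then 2 * l + 10 else if b + 1 ≤ l + 3 then l + 7 + (b + 1)
          else 2 * l + 10) +
        (if b + 1 = 0 then 2 * l + 8 else if b + 1 ≤ l + 1 then 2 * l + 9
          else if b + 1 ≤ l + 3 then 2 * l + 10 else l + 6) +
        (if b + 1 ≤ l + 2 then b + 1 + 3 else if b + 1 ≤ l + 3 then l + 5 else l + 6)) =
      ∑ b ∈ range (l + 1), (2 * b + (4 * l + 26)) := Finset.sum_congr rfl fun b hb => by
    rw [Finset.mem_range] at hb
    simp only [if_neg (show ¬ (b + 1 = 0) by omega), if_pos (show b + 1 ≤ l + 3 by omega),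
      if_pos (show b + 1 ≤ l + 1 by omega), if_pos (show b + 1 ≤ l + 2 by omega)]
    ring
  rw [h]
  simp only [if_true, if_pos (show 0 ≤ l + 2 by omega),
    if_neg (show ¬ (l + 2 = 0) by omega), if_pos (show l + 2 ≤ l + 3 by omega),
    if_neg (show ¬ (l + 2 ≤ l + 1) by omega), if_pos (show l + 2 ≤ l + 2 by omega),
    if_neg (show ¬ (l + 3 = 0) by omega), if_pos (show l + 3 ≤ l + 3 by omega),
    if_neg (show ¬ (l + 3 ≤ l + 1) by omega), if_neg (show ¬ (l + 3 ≤ l + 2) by omega),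
    if_neg (show ¬ (l + 4 = 0) by omega), if_neg (show ¬ (l + 4 ≤ l + 3) by omega),
    if_neg (show ¬ (l + 4 ≤ l + 1) by omega), if_neg (show ¬ (l + 4 ≤ l + 2) by omega)]
  nlinarith

/-- **Upper bound for `ρ(P_n)`.**  For every `n ≥ 2` we have `ρ(P_n) ≤ (5 n² + 4 n + 20) / 16` if
`n` is even and `ρ(P_n) ≤ (5 n² + 6 n + 5) / 16` if `n` is odd. -/
theorem result (n : ℕ) (hn : 2 ≤ n) :
    (Even n → 16 * rho (SimpleGraph.pathGraph n) ≤ 5 * n ^ 2 + 4 * n + 20) ∧
    (Odd n → 16 * rho (SimpleGraph.pathGraph n) ≤ 5 * n ^ 2 + 6 * n + 5) := by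
  obtain ⟨k, j, hj, rfl⟩ : ∃ k j, j < 4 ∧ n = 4 * k + j :=
    ⟨n / 4, n % 4, Nat.mod_lt _ (by norm_num), by omega⟩
  interval_cases j
  · -- `n = 4 k`
    refine ⟨fun _ => ?_, fun h => absurd h (by rw [Nat.not_odd_iff_even]; exact ⟨2 * k, by ring⟩)⟩
    rcases lt_or_ge k 5 with hk | hk
    · interval_cases k
      · omega
      · have := rho_le_sum good_4
        simp [wList, Finset.sum_range_succ] at this ⊢
        omega
      · have := rho_le_sum good_8
        simp [wList, Finset.sum_range_succ] at this ⊢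
        omega
      · have := rho_le_sum good_12
        simp [wList, Finset.sum_range_succ] at this ⊢
        omega
      · have := rho_le_sum good_16
        simp [wList, Finset.sum_range_succ] at this ⊢
        omega
    · obtain ⟨l, rfl⟩ : ∃ l, k = l + 5 := ⟨k - 5, by omega⟩
      have := rho_le_sum (good_D l)
      rw [total_D] at this
      rw [add_zero]
      nlinarith
  · -- `n = 4 k + 1`
    refine ⟨fun h => absurd h (by rw [Nat.not_even_iff_odd]; exact ⟨2 * k, by ring⟩), fun _ => ?_⟩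
    obtain ⟨l, rfl⟩ : ∃ l, k = l + 1 := ⟨k - 1, by omega⟩
    have := rho_le_sum (good_C (l + 1) (by omega))
    rw [total_C] at this
    nlinarith
  · -- `n = 4 k + 2`
    refine ⟨fun _ => ?_, fun h => absurd h (by rw [Nat.not_odd_iff_even];
                                               exact ⟨2 * k + 1, by ring⟩)⟩
    rcases Nat.eq_zero_or_pos k with rfl | hk
    · have := rho_le_sum good_2
      simp [wList, Finset.sum_range_succ] at this ⊢
      omega
    · obtain ⟨l, rfl⟩ : ∃ l, k = l + 1 := ⟨k - 1, by omega⟩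
      have := rho_le_sum (good_B (l + 1) (by omega))
      rw [total_B] at this
      nlinarith
  · -- `n = 4 k + 3`
    refine ⟨fun h => absurd h (by rw [Nat.not_even_iff_odd]; exact ⟨2 * k + 1, by ring⟩),
      fun _ => ?_⟩
    have := rho_le_sum (good_A k)
    rw [total_A] at this
    nlinarith

end Pool.Agent.Results.MP_34314e_co.UpperBound
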